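import Pool.Agent.Helper21.CU.St2
import Pool.Agent.Helper8.CU.M_CSM

set_option autoImplicit false

open Finset

noncomputable section

namespace Pool.Agent.Helper80.CU

open Pool.Agent.Helper21.CU Pool.Agent.Helper8.CU

/-- the number of nonsquares -/
theorem card_nonsq (p : ℕ) [Fact p.Prime] (hp : 5 ≤ p) :
    2 * (Finset.univ.filter fun y : ZMod p => ¬ IsSquare y).card + 1 = p := by
  classical
  have h := sum_sq p hp
  have h1 : ∑ y : ZMod p, chi p y = ∑ y : ZMod p, (1 - 2 * if ¬ IsSquare y then (1 : ℝ) else 0) := by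
    refine Finset.sum_congr rfl fun y _ => ?_
    unfold chi
    by_cases hy : IsSquare y
    · rw [if_pos hy, if_neg (not_not.2 hy)]
      norm_num
    · rw [if_neg hy, if_pos hy]
      norm_num
  rw [h1, Finset.sum_sub_distrib, ← Finset.mul_sum, Finset.sum_boole] at h
  simp only [Finset.sum_const, Finset.card_univ, ZMod.card, nsmul_eq_mul, mul_one] at h
  have h2 : (2 : ℝ) * ((Finset.univ.filter fun y : ZMod p => ¬ IsSquare y).card : ℝ) + 1 = p := by
    have h3 : ((Finset.univ.filter fun y : ZMod p => ¬ IsSquare y).card : ℝ) =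
        ((Finset.univ.filter fun y : ZMod p => ¬ IsSquare y).card : ℝ) := rfl
    linarith [h]
  exact_mod_cast h2

theorem hNSQ : StNSQ := by
  classical
  intro k s v p hp hp3 hp5 hps
  have : Fact p.Prime := ⟨hp⟩
  have hs' : (s : ZMod p) ≠ 0 := by
    intro h0
    exact hps ((ZMod.intCast_zmod_eq_zero_iff_dvd s p).1 h0)
  set F : ZMod p → ZMod p := fun x => ph k s p ((v : ZMod p) + (s : ZMod p) * x) with hF
  have hFinj : Function.Injective F := by
    intro x y h
    have h1 := ph_inj k s p hp3 hp5 hps h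
    have h2 := add_left_cancel h1
    exact mul_left_cancel₀ hs' h2
  have hFbij : Function.Bijective F := Finite.injective_iff_bijective.1 hFinj
  have hcast : ∀ j : ℕ, ((D k s (v + s * j) : ℤ) : ZMod p) = F ((j : ℕ) : ZMod p) := by
    intro j
    rw [cast_D]
    simp only [hF]
    push_cast
    rfl
  refine ⟨(range p).filter fun j : ℕ => ¬ IsSquare (F ((j : ℕ) : ZMod p)),
    Finset.filter_subset _ _, ?_, ?_⟩
  · have e1 : ((range p).filter fun j : ℕ => ¬ IsSquare (F ((j : ℕ) : ZMod p))).card =
        (Finset.univ.filter fun y : ZMod p => ¬ IsSquare y).card := by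
      refine Finset.card_bij (fun j _ => F ((j : ℕ) : ZMod p)) ?_ ?_ ?_
      · intro j hj
        rw [Finset.mem_filter] at hj ⊢
        exact ⟨Finset.mem_univ _, hj.2⟩
      · intro i hi j hj h
        have h1 := hFinj h
        have h2 : i ≡ j [MOD p] := (ZMod.natCast_eq_natCast_iff i j p).1 h1
        have hi' := Finset.mem_range.1 (Finset.mem_filter.1 hi).1
        have hj' := Finset.mem_range.1 (Finset.mem_filter.1 hj).1
        exact Nat.ModEq.eq_of_lt_of_lt h2 hi' hj'
      · intro y hy
        obtain ⟨x, hx⟩ := hFbij.2 y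
        refine ⟨x.val, ?_, ?_⟩
        · rw [Finset.mem_filter, Finset.mem_range, ZMod.natCast_zmod_val, hx]
          exact ⟨ZMod.val_lt x, (Finset.mem_filter.1 hy).2⟩
        · rw [ZMod.natCast_zmod_val, hx]
    rw [e1]
    have := card_nonsq p hp5
    omega
  · intro j hj hmem
    rw [Finset.mem_filter] at hmem
    apply hmem.2
    have e2 : ((j % p : ℕ) : ZMod p) = ((j : ℕ) : ZMod p) := by
      rw [ZMod.natCast_mod]
    rw [e2, ← hcast]
    obtain ⟨r, hr⟩ := hj
    exact ⟨((r : ℤ) : ZMod p), by rw [hr]; push_cast; rfl⟩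

end Pool.Agent.Helper80.CU
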